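import Pool.Agent.H10.CC.Cplx

set_option autoImplicit false

/-!
# Complex spaces with a Schauder basis: arbitrary sets of exponents
-/

namespace Pool.Agent.H10.CC

open Pool.Agent.K7.H85 Pool.Agent.K7.H85.CC Filter Topology

/-- `x` is a Schauder basis of `X` with coefficient functionals `φ`. -/
def IsBasis {X : Type*} [NormedAddCommGroup X] [NormedSpace ℂ X] (x : ℕ → X)
    (φ : ℕ → X →L[ℂ] ℂ) : Prop :=
  (∀ n m, φ n (x m) = if n = m then 1 else 0) ∧
    ∀ y : X, Tendsto (fun N => ∑ i ∈ Finset.range N, φ i y • x i) atTop (𝓝 y)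

variable {X : Type*} [NormedAddCommGroup X] [NormedSpace ℂ X] [CompleteSpace X]

/-- Multiplier of bounded variation along a Schauder basis. -/
lemma exists_multiplier (x : ℕ → X) (φ : ℕ → X →L[ℂ] ℂ) (hb : IsBasis x φ) (κ : ℕ → ℂ) (κ₀ : ℂ)
    (hκ : Tendsto κ atTop (𝓝 κ₀)) (hbv : Summable fun n => ‖κ n - κ (n + 1)‖) :
    ∃ S : X →L[ℂ] X, (∀ m, S (x m) = κ m • x m) ∧ ∀ m y, φ m (S y) = κ m * φ m y := by
  classical
  let P : ℕ → (X →L[ℂ] X) := fun N => ∑ i ∈ Finset.range N, (φ i).smulRight (x i)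
  have hP : ∀ N y, P N y = ∑ i ∈ Finset.range N, φ i y • x i := by
    intro N y
    simp only [P, sum_apply, ContinuousLinearMap.smulRight_apply]
  obtain ⟨K, hK⟩ : ∃ K, ∀ N, ‖P N‖ ≤ K := by
    apply banach_steinhaus
    intro y
    have h1 : Tendsto (fun N => ‖P N y‖) atTop (𝓝 ‖y‖) := by
      simp only [hP]
      exact (hb.2 y).norm
    obtain ⟨C, hC⟩ := h1.bddAbove_range
    exact ⟨C, fun N => hC ⟨N, rfl⟩⟩
  let A : ℕ → (X →L[ℂ] X) := fun n => (κ n - κ (n + 1)) • P (n + 1)
  have hA : Summable A := by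
    refine Summable.of_norm_bounded (hbv.mul_right K) fun n => ?_
    simp only [A]
    rw [norm_smul]
    exact mul_le_mul_of_nonneg_left (hK _) (norm_nonneg _)
  -- telescoping
  have htel : ∀ m, HasSum (fun n => if m ≤ n then κ n - κ (n + 1) else 0) (κ m - κ₀) := by
    intro m
    have hs : Summable (fun n => if m ≤ n then κ n - κ (n + 1) else 0) := by
      refine Summable.of_norm_bounded hbv fun n => ?_
      split_ifs with h
      · exact le_rfl
      · simp
    rw [hs.hasSum_iff_tendsto_nat]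
    have h1 : ∀ N, m ≤ N → ∑ i ∈ Finset.range N, (if m ≤ i then κ i - κ (i + 1) else 0) =
        κ m - κ N := by
      intro N hN
      induction N, hN using Nat.le_induction with
      | base =>
        rw [sub_self]
        apply Finset.sum_eq_zero
        intro i hi
        rw [if_neg (by have := Finset.mem_range.1 hi; omega)]
      | succ N hN ih =>
        rw [Finset.sum_range_succ, ih, if_pos hN]
        ring
    have h2 : Tendsto (fun N => κ m - κ N) atTop (𝓝 (κ m - κ₀)) := tendsto_const_nhds.sub hκ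
    refine h2.congr' ?_
    filter_upwards [eventually_ge_atTop m] with N hN
    rw [h1 N hN]
  have hPx : ∀ m n, P (n + 1) (x m) = (if m ≤ n then (1 : ℂ) else 0) • x m := by
    intro m n
    rw [hP]
    simp only [hb.1]
    by_cases hmn : m ≤ n
    · rw [Finset.sum_eq_single m]
      · simp [hmn]
      · intro i _ hi
        rw [if_neg hi, zero_smul]
      · intro h
        exact absurd (Finset.mem_range.2 (by omega)) h
    · rw [if_neg hmn, zero_smul]
      apply Finset.sum_eq_zero
      intro i hi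
      rw [if_neg (by have := Finset.mem_range.1 hi; omega), zero_smul]
  have hφP : ∀ m n y, φ m (P (n + 1) y) = (if m ≤ n then (1 : ℂ) else 0) * φ m y := by
    intro m n y
    rw [hP, map_sum]
    simp only [map_smul, hb.1, smul_eq_mul]
    by_cases hmn : m ≤ n
    · rw [Finset.sum_eq_single m]
      · simp [hmn]
      · intro i _ hi
        rw [if_neg (Ne.symm hi), mul_zero]
      · intro h
        exact absurd (Finset.mem_range.2 (by omega)) h
    · rw [if_neg hmn, zero_mul]
      apply Finset.sum_eq_zero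
      intro i hi
      rw [if_neg (by have := Finset.mem_range.1 hi; omega), mul_zero]
  refine ⟨κ₀ • ContinuousLinearMap.id ℂ X + ∑' n, A n, ?_, ?_⟩
  · intro m
    have h1 : HasSum (fun n => A n (x m)) ((∑' n, A n) (x m)) := hasSum_eval A hA (x m)
    have h2 : HasSum (fun n => A n (x m)) ((κ m - κ₀) • x m) := by
      have h3 := (htel m).smul_const (x m)
      have h4 : (fun n => A n (x m)) = fun n => (if m ≤ n then κ n - κ (n + 1) else 0) • x m := by
        funext n
        simp only [A, smul_apply, hPx]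
        split_ifs <;> simp
      rw [h4]
      exact h3
    simp only [smul_apply, add_apply, ContinuousLinearMap.id_apply]
    rw [h1.unique h2, ← add_smul]
    congr 1
    ring
  · intro m y
    have h1 : HasSum (fun n => A n y) ((∑' n, A n) y) := hasSum_eval A hA y
    have h1' : HasSum (fun n => φ m (A n y)) (φ m ((∑' n, A n) y)) := hasSum_map (φ m) h1
    have h2 : HasSum (fun n => φ m (A n y)) ((κ m - κ₀) * φ m y) := by
      have h3 := (htel m).mul_right (φ m y)
      have h4 : (fun n => φ m (A n y)) = fun n => (if m ≤ n then κ n - κ (n + 1) else 0) * φ m y := by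
        funext n
        simp only [A, smul_apply, map_smul, hφP, smul_eq_mul]
        split_ifs <;> ring
      rw [h4]
      exact h3
    simp only [smul_apply, add_apply, ContinuousLinearMap.id_apply, map_smul, map_add, smul_eq_mul]
    rw [h1'.unique h2]
    ring

lemma exp_lip (a b : ℝ) : ‖Complex.exp (a * Complex.I) - Complex.exp (b * Complex.I)‖ ≤ |a - b| := by
  have h1 : Complex.exp (a * Complex.I) - Complex.exp (b * Complex.I) =
      Complex.exp (b * Complex.I) * (Complex.exp (Complex.I * ((a - b : ℝ) : ℂ)) - 1) := by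
    rw [mul_sub, ← Complex.exp_add, mul_one]
    congr 2
    push_cast
    ring
  rw [h1, norm_mul, Complex.norm_exp_ofReal_mul_I, one_mul]
  exact Real.norm_exp_I_mul_ofReal_sub_one_le

/-- Complex spaces with a Schauder basis, arbitrary sets `Q`. -/
theorem complex_basis (x : ℕ → X) (φ : ℕ → X →L[ℂ] ℂ) (hb : IsBasis x φ) (Q : Set ℕ)
    (hQ : ∀ q ∈ Q, 2 ≤ q) :
    ∃ (S : X →L[ℂ] X) (x : X), Powers S x {n | ∀ q ∈ Q, ¬ q ∣ n} := by
  classical
  have hπ := Real.pi_pos
  have hdiag : ∀ n, (x n = 0 ∧ φ n = 0) ∨ φ n (x n) = 1 := fun n => Or.inr (by rw [hb.1, if_pos rfl])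
  have hx0 : ∀ m, x m ≠ 0 := by
    intro m h0
    have := hb.1 m m
    rw [h0, map_zero, if_pos rfl] at this
    exact zero_ne_one this
  have hdense : Dense (Submodule.span ℂ (Set.range x) : Set X) := by
    intro y
    refine mem_closure_of_tendsto (hb.2 y) (Eventually.of_forall fun N => ?_)
    exact Submodule.sum_mem _ fun i _ => Submodule.smul_mem _ _ (Submodule.subset_span ⟨i, rfl⟩)
  let w : ℕ → ℝ := fun m => (1 / 2) ^ m
  have hw0 : ∀ m, 0 < w m := fun m => by positivity
  have hw : ∀ n m, n < m → w m < w n := fun n m h =>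
    pow_lt_pow_right_of_lt_one₀ (by norm_num) (by norm_num) h
  have hw1 : ∀ m, w m ≤ 1 := fun m => pow_le_one₀ (by norm_num) (by norm_num)
  let θ : ℕ → ℝ := fun m => Real.pi / ((m + 2 : ℕ) : ℝ) + (if m + 2 ∈ Q then 0 else (1 / 2) ^ m)
  let κ : ℕ → ℂ := fun m => Complex.exp (θ m * Complex.I) * ((2 + w m : ℝ) : ℂ)
  have hw' : Tendsto w atTop (𝓝 0) :=
    tendsto_pow_atTop_nhds_zero_of_lt_one (by norm_num) (by norm_num)
  have hθ' : Tendsto θ atTop (𝓝 0) := by
    have h1 : Tendsto (fun m : ℕ => Real.pi / ((m + 2 : ℕ) : ℝ)) atTop (𝓝 0) := by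
      have := (tendsto_const_div_atTop_nhds_zero_nat Real.pi)
      exact this.comp (tendsto_add_atTop_nat 2)
    have h2 : Tendsto (fun m : ℕ => (if m + 2 ∈ Q then (0 : ℝ) else (1 / 2) ^ m)) atTop (𝓝 0) := by
      refine squeeze_zero (fun m => ?_) (fun m => ?_) hw'
      · split_ifs
        · exact le_rfl
        · positivity
      · split_ifs
        · exact (hw0 m).le
        · exact le_rfl
    have := h1.add h2
    rw [add_zero] at this
    exact this
  have hκ : Tendsto κ atTop (𝓝 2) := by
    have h1 : Tendsto (fun m => Complex.exp (θ m * Complex.I)) atTop (𝓝 1) := by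
      have : Tendsto (fun m => ((θ m : ℝ) : ℂ) * Complex.I) atTop (𝓝 (((0 : ℝ) : ℂ) * Complex.I)) :=
        ((Complex.continuous_ofReal.tendsto 0).comp hθ').mul_const _
      have h2 := (Complex.continuous_exp.tendsto _).comp this
      have e : Complex.exp (((0 : ℝ) : ℂ) * Complex.I) = 1 := by simp
      rw [e] at h2
      exact h2
    have h2 : Tendsto (fun m => ((2 + w m : ℝ) : ℂ)) atTop (𝓝 (((2 + 0 : ℝ)) : ℂ)) :=
      (Complex.continuous_ofReal.tendsto _).comp (tendsto_const_nhds.add hw')
    have := h1.mul h2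
    have e : (1 : ℂ) * (((2 + 0 : ℝ)) : ℂ) = 2 := by simp
    rw [e] at this
    exact this
  have hbv : Summable fun n => ‖κ n - κ (n + 1)‖ := by
    have hs1 : Summable fun n : ℕ => Real.pi / ((n + 2 : ℕ) : ℝ) - Real.pi / ((n + 1 + 2 : ℕ) : ℝ) := by
      refine summable_of_sum_range_le (c := Real.pi / 2) ?_ ?_
      · intro n
        rw [sub_nonneg]
        exact div_le_div_of_nonneg_left hπ.le (by positivity) (by push_cast; linarith)
      · intro N
        rw [Finset.sum_range_sub' (fun n : ℕ => Real.pi / ((n + 2 : ℕ) : ℝ))]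
        have : 0 ≤ Real.pi / ((N + 2 : ℕ) : ℝ) := by positivity
        simp only [zero_add, Nat.cast_ofNat]
        linarith
    have hs2 : Summable fun n : ℕ => ((1 / 2 : ℝ)) ^ n :=
      summable_geometric_of_lt_one (by norm_num) (by norm_num)
    refine Summable.of_nonneg_of_le (fun n => norm_nonneg _) (fun n => ?_)
      ((hs1.mul_left 3).add (hs2.mul_left 7))
    have hθd : |θ n - θ (n + 1)| ≤
        (Real.pi / ((n + 2 : ℕ) : ℝ) - Real.pi / ((n + 1 + 2 : ℕ) : ℝ)) + 2 * (1 / 2) ^ n := by
      have h1 : 0 ≤ Real.pi / ((n + 2 : ℕ) : ℝ) - Real.pi / ((n + 1 + 2 : ℕ) : ℝ) := by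
        rw [sub_nonneg]
        exact div_le_div_of_nonneg_left hπ.le (by positivity) (by push_cast; linarith)
      have h2 : ∀ m, |(if m + 2 ∈ Q then (0 : ℝ) else (1 / 2) ^ m)| ≤ (1 / 2) ^ m := by
        intro m
        split_ifs
        · rw [abs_zero]; positivity
        · rw [abs_of_pos (by positivity)]
      have h3 : ((1 / 2 : ℝ)) ^ (n + 1) ≤ (1 / 2) ^ n :=
        pow_le_pow_of_le_one (by norm_num) (by norm_num) (Nat.le_succ n)
      have e : θ n - θ (n + 1) = (Real.pi / ((n + 2 : ℕ) : ℝ) - Real.pi / ((n + 1 + 2 : ℕ) : ℝ)) +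
          ((if n + 2 ∈ Q then (0 : ℝ) else (1 / 2) ^ n) -
            (if n + 1 + 2 ∈ Q then (0 : ℝ) else (1 / 2) ^ (n + 1))) := by
        simp only [θ]; ring
      rw [e]
      refine (abs_add_le _ _).trans ?_
      rw [abs_of_nonneg h1]
      have h4 := abs_sub (if n + 2 ∈ Q then (0 : ℝ) else (1 / 2) ^ n)
        (if n + 1 + 2 ∈ Q then (0 : ℝ) else (1 / 2) ^ (n + 1))
      have h5 := h2 n
      have h6 := h2 (n + 1)
      linarith
    have e : κ n - κ (n + 1) = (Complex.exp (θ n * Complex.I) - Complex.exp (θ (n + 1) * Complex.I)) *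
        ((2 + w n : ℝ) : ℂ) + Complex.exp (θ (n + 1) * Complex.I) * ((w n - w (n + 1) : ℝ) : ℂ) := by
      simp only [κ]; push_cast; ring
    have hwn := hw0 n
    have hwn1 := hw1 n
    have hwd : |w n - w (n + 1)| ≤ (1 / 2) ^ n := by
      rw [abs_of_nonneg (sub_nonneg.2 (hw n (n + 1) (Nat.lt_succ_self n)).le)]
      have : 0 < w (n + 1) := hw0 _
      simp only [w] at this ⊢
      linarith
    rw [e]
    refine (norm_add_le _ _).trans ?_
    rw [norm_mul, norm_mul, Complex.norm_exp_ofReal_mul_I, one_mul, Complex.norm_real,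
      Complex.norm_real, Real.norm_eq_abs, Real.norm_eq_abs, abs_of_pos (by linarith)]
    have h7 := exp_lip (θ n) (θ (n + 1))
    have h8 : ‖Complex.exp (θ n * Complex.I) - Complex.exp (θ (n + 1) * Complex.I)‖ * (2 + w n) ≤
        |θ n - θ (n + 1)| * 3 :=
      mul_le_mul h7 (by linarith) (by linarith) (abs_nonneg _)
    linarith
  obtain ⟨S, hS, hφS⟩ := exists_multiplier x φ hb κ 2 hκ hbv
  refine ⟨S, _, powers_of ?_ fun n hn => complex_iff x φ hdiag hdense S θ w hw0 hw hS hφS n hn⟩
  intro n hn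
  constructor
  · intro h q hq hqn
    have hq2 := hQ q hq
    apply h (q - 2) (hx0 _)
    have e : q - 2 + 2 = q := by omega
    have : θ (q - 2) = Real.pi / (q : ℝ) := by
      simp only [θ, e, if_pos hq, add_zero]
    rw [this, sin_div_eq_zero n q (by omega)]
    exact hqn
  · intro h m _
    by_cases hmQ : m + 2 ∈ Q
    · have h1 : θ m = Real.pi / ((m + 2 : ℕ) : ℝ) := by simp only [θ, if_pos hmQ, add_zero]
      rw [h1, Ne, sin_div_eq_zero n _ (by omega)]
      exact h _ hmQ
    · have h1 : θ m = ((1 / ((m : ℚ) + 2) : ℚ) : ℝ) * Real.pi + (((1 / 2) ^ m : ℚ) : ℝ) := by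
        simp only [θ, if_neg hmQ]
        push_cast
        ring
      rw [h1]
      exact sin_one_ne n hn _ _ (by positivity)

end Pool.Agent.H10.CC
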