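import Pool.Agent.H10.CC.Diag

set_option autoImplicit false

/-!
# Complex spaces: exact set of convex-cyclic powers of a diagonal operator
-/

namespace Pool.Agent.H10.CC

open Pool.Agent.K7.H85 Pool.Agent.K7.H85.CC Filter Topology
open Pool.Agent.Results.MP_8292e8_an.EverySeparableSpace (exists_weights not_convexCyclic)

lemma re_rot (θ : ℝ) (n j : ℕ) (b : ℂ) :
    ((Complex.exp (θ * Complex.I) ^ n) ^ j * b).re = ‖b‖ * Real.cos (b.arg + j * (n * θ)) := by
  have h1 : (Complex.exp (θ * Complex.I) ^ n) ^ j * b =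
      (‖b‖ : ℂ) * Complex.exp (((b.arg + j * (n * θ) : ℝ) : ℂ) * Complex.I) := by
    conv_lhs => rw [← Complex.norm_mul_exp_arg_mul_I b]
    rw [← Complex.exp_nat_mul, ← Complex.exp_nat_mul, mul_left_comm, ← Complex.exp_add]
    congr 2
    push_cast
    ring
  rw [h1, Complex.re_ofReal_mul, Complex.exp_ofReal_mul_I_re]

variable {X : Type*} [NormedAddCommGroup X] [NormedSpace ℂ X] [CompleteSpace X]

/-- Exact set of exponents for which the power of a diagonal operator is convex-cyclic. -/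
lemma complex_iff (x : ℕ → X) (φ : ℕ → X →L[ℂ] ℂ)
    (hdiag : ∀ n, (x n = 0 ∧ φ n = 0) ∨ φ n (x n) = 1)
    (hdense : Dense (Submodule.span ℂ (Set.range x) : Set X))
    (S : X →L[ℂ] X) (θ : ℕ → ℝ) (w : ℕ → ℝ) (hw0 : ∀ m, 0 < w m)
    (hw : ∀ n m, n < m → w m < w n)
    (hS : ∀ m, S (x m) = (Complex.exp (θ m * Complex.I) * ((2 + w m : ℝ) : ℂ)) • x m)
    (hφS : ∀ m y, φ m (S y) = (Complex.exp (θ m * Complex.I) * ((2 + w m : ℝ) : ℂ)) * φ m y)
    (n : ℕ) (hn : 1 ≤ n) :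
    (ConvexCyclic (S ^ n) → ∀ m, x m ≠ 0 → Real.sin (n * θ m) ≠ 0) ∧
    ((∀ m, x m ≠ 0 → Real.sin (n * θ m) ≠ 0) →
      Dense (coOrb (S ^ n) (vec (𝕜 := ℂ) x fun m => ‖x m‖))) := by
  constructor
  · intro hcc m hm hsin
    have hφ : φ m (x m) = 1 := (hdiag m).resolve_left fun h => hm h.1
    refine not_convexCyclic (S ^ n) (φ m) (x m) hφ (Real.cos (n * θ m) * (2 + w m) ^ n)
      (Or.inr Complex.I_mul_I) ?_ hcc
    have hpow : ∀ k y, φ m ((S ^ k) y) =
        (Complex.exp (θ m * Complex.I) * ((2 + w m : ℝ) : ℂ)) ^ k * φ m y := by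
      intro k y
      induction k with
      | zero => simp
      | succ k ih => rw [pow_succ', mul_apply_eq_comp, hφS, ih, pow_succ]; ring
    intro y
    rw [hpow, mul_pow, ← Complex.exp_nat_mul]
    have h1 : Complex.exp ((n : ℂ) * (θ m * Complex.I)) = ((Real.cos (n * θ m) : ℝ) : ℂ) := by
      have : (n : ℂ) * (θ m * Complex.I) = ((n * θ m : ℝ) : ℂ) * Complex.I := by push_cast; ring
      rw [this]
      apply Complex.ext
      · rw [Complex.exp_ofReal_mul_I_re, Complex.ofReal_re]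
      · rw [Complex.exp_ofReal_mul_I_im, Complex.ofReal_im, hsin]
    rw [h1]
    simp only [RCLike.ofReal_mul, RCLike.ofReal_pow, Complex.coe_algebraMap]
  · intro h
    refine diag_convexCyclic x hdense S (fun m => Complex.exp (θ m * Complex.I))
      (fun m => Complex.norm_exp_ofReal_mul_I _) w hw0 hw hS n hn ?_
    intro m hm b hb
    obtain ⟨δ, hδ, hosc⟩ := osc (h m hm)
    refine ⟨‖b‖ * δ, by positivity, fun N => ?_⟩
    obtain ⟨j, hj, hj2⟩ := hosc b.arg N
    refine ⟨j, hj, ?_⟩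
    show ‖b‖ * δ ≤ ((Complex.exp (θ m * Complex.I) ^ n) ^ j * b).re
    rw [re_rot]
    exact mul_le_mul_of_nonneg_left hj2 (norm_nonneg b)

lemma sin_one_ne (n : ℕ) (hn : 1 ≤ n) (a : ℚ) (r : ℚ) (hr : r ≠ 0) :
    Real.sin (n * (a * Real.pi + r)) ≠ 0 := by
  intro h
  rw [Real.sin_eq_zero_iff] at h
  obtain ⟨k, hk⟩ := h
  have hn0 : (n : ℝ) ≠ 0 := by exact_mod_cast (by omega : n ≠ 0)
  have h1 : ((k : ℝ) - n * a) * Real.pi = n * r := by linear_combination hk
  have h2 : ((k : ℝ) - n * a) ≠ 0 := by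
    intro h0
    rw [h0, zero_mul] at h1
    have : (r : ℝ) ≠ 0 := by exact_mod_cast hr
    exact (mul_ne_zero hn0 this) h1.symm
  have h3 : Real.pi = ((n * r / (k - n * a) : ℚ) : ℝ) := by
    push_cast
    rw [eq_div_iff h2]
    linarith
  exact irrational_pi ⟨_, h3.symm⟩

lemma sin_div_eq_zero (n q : ℕ) (hq : 1 ≤ q) : Real.sin (n * (Real.pi / q)) = 0 ↔ q ∣ n := by
  have hq0 : (q : ℝ) ≠ 0 := by exact_mod_cast (by omega : q ≠ 0)
  rw [Real.sin_eq_zero_iff]
  constructor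
  · rintro ⟨k, hk⟩
    have h1 : (k : ℝ) * q = n := by
      have : (k : ℝ) * Real.pi * q = n * Real.pi := by
        rw [hk]; field_simp
      have hπ := Real.pi_ne_zero
      have h2 : ((k : ℝ) * q - n) * Real.pi = 0 := by linear_combination this
      rcases mul_eq_zero.1 h2 with h3 | h3
      · linarith
      · exact absurd h3 hπ
    have h2 : k * (q : ℤ) = n := by exact_mod_cast h1
    have h3 : (q : ℤ) ∣ n := ⟨k, by rw [← h2]; ring⟩
    exact_mod_cast h3
  · rintro ⟨c, rfl⟩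
    refine ⟨c, ?_⟩
    push_cast
    field_simp

end Pool.Agent.H10.CC
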