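import Mathlib
import Pool.Graph.R_pool_sql_team_seeded_35f281b4.K7.H85.Biorth
import Pool.Graph.R_pool_sql_team_seeded_35f281b4.K7.H85.ConvexCyclicDef
import Pool.Graph.R_pool_sql_team_seeded_35f281b4.Results.MP_8292e8_an.EverySeparableSpace

set_option autoImplicit false

/-!
# A criterion for convex-cyclicity, and the oscillation of cosines
-/

namespace Pool.Agent.H10.CC

open Pool.Agent.K7.H85 Pool.Agent.K7.H85.CC Filter Topology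

/-- The vector `∑ 2^{-n} (1 + C n)^{-1} v n`. -/
noncomputable def vec {𝕜 : Type*} [RCLike 𝕜] {X : Type*} [NormedAddCommGroup X] [NormedSpace 𝕜 X]
    (v : ℕ → X) (C : ℕ → ℝ) : X := ∑' n, (((1 / 2) ^ n / (1 + C n) : ℝ) : 𝕜) • v n

/-- Criterion: vectors `v m` growing at strictly decreasing exponential rates `ρ m`, with oscillation
in the leading term. -/
lemma crit {𝕜 : Type*} [RCLike 𝕜] {X : Type*} [NormedAddCommGroup X] [NormedSpace 𝕜 X]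
    [CompleteSpace X]
    (T : X →L[𝕜] X) (v : ℕ → X) (ρ C : ℕ → ℝ) (hρ0 : ∀ m, 1 < ρ m) (hρ : ∀ n m, n < m → ρ m < ρ n)
    (hC : ∀ m, 0 ≤ C m) (hbd : ∀ m k, ‖(T ^ k) (v m)‖ ≤ C m * ρ m ^ k)
    (htot : ∀ f : X →L[𝕜] 𝕜, f ≠ 0 → ∃ m k, f ((T ^ k) (v m)) ≠ 0)
    (hosc : ∀ (f : X →L[𝕜] 𝕜) (m : ℕ), (∃ k, f ((T ^ k) (v m)) ≠ 0) →
      ∃ δ : ℝ, 0 < δ ∧ ∀ N : ℕ, ∃ k, N ≤ k ∧ δ * ρ m ^ k ≤ RCLike.re (f ((T ^ k) (v m)))) :
    Dense (coOrb T (vec (𝕜 := 𝕜) v C)) := by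
  let c : ℕ → ℝ := fun n => (1 / 2) ^ n / (1 + C n)
  have hc0 : ∀ n, 0 < c n := fun n => by have := hC n; positivity
  have hcC : ∀ n, c n * C n ≤ (1 / 2) ^ n := by
    intro n
    simp only [c]
    have h1 := hC n
    rw [div_mul_eq_mul_div, div_le_iff₀ (by positivity)]
    have : 0 ≤ (1 / 2 : ℝ) ^ n := by positivity
    nlinarith
  have hcx : ∀ n, ‖((c n : ℝ) : 𝕜) • v n‖ ≤ (1 / 2) ^ n := by
    intro n
    rw [norm_smul, RCLike.norm_ofReal, abs_of_pos (hc0 n)]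
    have h1 := hbd n 0
    simp only [pow_zero, mul_one] at h1
    have h2 : ‖v n‖ ≤ C n := by simpa using h1
    exact (mul_le_mul_of_nonneg_left h2 (hc0 n).le).trans (hcC n)
  have hsum : Summable fun n => ((c n : ℝ) : 𝕜) • v n :=
    Summable.of_norm_bounded (summable_geometric_of_lt_one (r := (1 / 2 : ℝ)) (by norm_num)
      (by norm_num)) hcx
  show Dense (coOrb T (∑' n, ((c n : ℝ) : 𝕜) • v n))
  refine dense_of_unbounded T _ fun f hf u => ?_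
  have hex := htot f hf
  classical
  let n₀ := Nat.find hex
  have hn₀ : ∃ k, f ((T ^ k) (v n₀)) ≠ 0 := Nat.find_spec hex
  have hmin : ∀ n, n < n₀ → ∀ k, f ((T ^ k) (v n)) = 0 := by
    intro n hn k
    by_contra hk
    exact Nat.find_min hex hn ⟨k, hk⟩
  obtain ⟨δ, hδ, hδk⟩ := hosc f n₀ hn₀
  have hval : ∀ k, HasSum (fun n => c n * RCLike.re (f ((T ^ k) (v n))))
      (RCLike.re (f ((T ^ k) (∑' n, ((c n : ℝ) : 𝕜) • v n)))) := by
    intro k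
    have h1 : HasSum (fun n => f ((T ^ k) (((c n : ℝ) : 𝕜) • v n)))
        (f ((T ^ k) (∑' n, ((c n : ℝ) : 𝕜) • v n))) :=
      hasSum_map f (hasSum_map (T ^ k) hsum.hasSum)
    have h2 := hasSum_re' h1
    have h3 : (fun n => RCLike.re (f ((T ^ k) (((c n : ℝ) : 𝕜) • v n)))) =
        fun n => c n * RCLike.re (f ((T ^ k) (v n))) := by
      funext n
      rw [map_smul, map_smul, smul_eq_mul, RCLike.re_ofReal_mul]
    rw [h3] at h2
    exact h2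
  set ρ₀ := ρ n₀ with hρ₀
  set ρ₁ := ρ (n₀ + 1) with hρ₁
  have hρ' : ρ₁ < ρ₀ := hρ n₀ (n₀ + 1) (Nat.lt_succ_self _)
  have hρ₁1 : 1 < ρ₁ := hρ0 _
  have hlow : ∀ k : ℕ, δ * ρ₀ ^ k ≤ RCLike.re (f ((T ^ k) (v n₀))) →
      c n₀ * (δ * ρ₀ ^ k) - ρ₁ ^ k * ‖f‖ * 2 ≤
      RCLike.re (f ((T ^ k) (∑' n, ((c n : ℝ) : 𝕜) • v n))) := by
    intro k hk
    have hl1 : HasSum (fun n => if n = n₀ then c n₀ * (δ * ρ₀ ^ k) else 0)
        (c n₀ * (δ * ρ₀ ^ k)) := hasSum_ite_eq n₀ _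
    have hl2 : HasSum (fun n : ℕ => ρ₁ ^ k * ‖f‖ * (1 / 2) ^ n) (ρ₁ ^ k * ‖f‖ * 2) := by
      have := hasSum_geometric_two.mul_left (ρ₁ ^ k * ‖f‖)
      simpa using this
    refine hasSum_le ?_ (hl1.sub hl2) (hval k)
    intro n
    have hpos : 0 ≤ ρ₁ ^ k * ‖f‖ * (1 / 2) ^ n := by positivity
    rcases lt_trichotomy n n₀ with hn | hn | hn
    · rw [if_neg hn.ne, hmin n hn]
      simp only [mul_zero, map_zero]
      linarith
    · subst hn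
      rw [if_pos rfl]
      have := mul_le_mul_of_nonneg_left hk (hc0 n₀).le
      linarith
    · rw [if_neg hn.ne']
      have e3 : ρ n ≤ ρ₁ := by
        rcases eq_or_lt_of_le (Nat.succ_le_of_lt hn) with h | h
        · rw [hρ₁, ← h]
        · exact (hρ (n₀ + 1) n h).le
      have e4 : 0 < ρ n := by have := hρ0 n; linarith
      have e1 : |c n * RCLike.re (f ((T ^ k) (v n)))| ≤ ρ₁ ^ k * ‖f‖ * (1 / 2) ^ n := by
        have e2 : |RCLike.re (f ((T ^ k) (v n)))| ≤ ‖f‖ * (C n * ρ n ^ k) :=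
          (RCLike.abs_re_le_norm _).trans ((f.le_opNorm _).trans (by
            have := hbd n k
            gcongr))
        rw [abs_mul, abs_of_pos (hc0 n)]
        calc c n * |RCLike.re (f ((T ^ k) (v n)))| ≤ c n * (‖f‖ * (C n * ρ n ^ k)) := by
              have := hc0 n
              gcongr
          _ = (c n * C n) * (ρ n ^ k * ‖f‖) := by ring
          _ ≤ (1 / 2) ^ n * (ρ₁ ^ k * ‖f‖) := by
              have := hcC n
              have := hC n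
              have := hc0 n
              gcongr
          _ = ρ₁ ^ k * ‖f‖ * (1 / 2) ^ n := by ring
      have := neg_le_of_abs_le e1
      linarith
  have hδpos : 0 < c n₀ * δ := mul_pos (hc0 n₀) hδ
  have hρ₀0 : 0 < ρ₀ := by linarith
  have hρ₁0 : 0 < ρ₁ := by linarith
  have hratio : Tendsto (fun k : ℕ => (ρ₁ / ρ₀) ^ k) atTop (𝓝 0) :=
    tendsto_pow_atTop_nhds_zero_of_lt_one (div_nonneg hρ₁0.le hρ₀0.le)
        (by rw [div_lt_one hρ₀0]; exact hρ')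
  have hbig : Tendsto (fun k : ℕ => ρ₀ ^ k) atTop atTop :=
    tendsto_pow_atTop_atTop_of_one_lt (by linarith)
  have hev1 : ∀ᶠ k : ℕ in atTop, (ρ₁ / ρ₀) ^ k * (‖f‖ * 2) < c n₀ * δ / 2 := by
    have h1 : Tendsto (fun k : ℕ => (ρ₁ / ρ₀) ^ k * (‖f‖ * 2)) atTop (𝓝 (0 * (‖f‖ * 2))) :=
      hratio.mul_const _
    rw [zero_mul] at h1
    exact h1.eventually (gt_mem_nhds (by linarith))
  have hev2 : ∀ᶠ k : ℕ in atTop, u / (c n₀ * δ / 2) ≤ ρ₀ ^ k := hbig.eventually_ge_atTop _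
  obtain ⟨N, hN⟩ := eventually_atTop.1 (hev1.and hev2)
  obtain ⟨k, hNk, hk⟩ := hδk N
  obtain ⟨hi1, hi2⟩ := hN k hNk
  refine ⟨k, le_trans ?_ (hlow k hk)⟩
  have hρ₀pos : 0 < ρ₀ ^ k := pow_pos hρ₀0 _
  have e1 : ρ₁ ^ k = (ρ₁ / ρ₀) ^ k * ρ₀ ^ k := by
    rw [div_pow, div_mul_cancel₀ _ hρ₀pos.ne']
  rw [div_le_iff₀ (by linarith)] at hi2
  calc u ≤ ρ₀ ^ k * (c n₀ * δ / 2) := hi2
    _ ≤ ρ₀ ^ k * (c n₀ * δ - (ρ₁ / ρ₀) ^ k * (‖f‖ * 2)) := by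
        gcongr
        linarith
    _ = c n₀ * (δ * ρ₀ ^ k) - ρ₁ ^ k * ‖f‖ * 2 := by
        rw [e1]; ring

/-- The orbit of a rotation by an angle `θ ∈ (0, π)` returns to the arc `|ψ| ≤ θ / 2`. -/
lemma osc_pos {θ : ℝ} (h0 : 0 < θ) (h1 : θ < Real.pi) (ψ : ℝ) (N : ℕ) :
    ∃ j : ℕ, N ≤ j ∧ Real.cos (θ / 2) ≤ Real.cos (ψ + j * θ) := by
  have hπ := Real.pi_pos
  obtain ⟨t, ht⟩ := exists_nat_ge ((N * θ + ψ + θ / 2) / (2 * Real.pi))
  rw [div_le_iff₀ (by positivity)] at ht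
  set y : ℝ := (t * (2 * Real.pi) - ψ - θ / 2) / θ with hy
  have hyN : (N : ℝ) ≤ y := by
    rw [hy, le_div_iff₀ h0]
    linarith
  have hy0 : 0 ≤ y := le_trans (Nat.cast_nonneg N) hyN
  refine ⟨⌈y⌉₊, ?_, ?_⟩
  · exact_mod_cast hyN.trans (Nat.le_ceil y)
  · have h2 : y ≤ (⌈y⌉₊ : ℝ) := Nat.le_ceil y
    have h3 : (⌈y⌉₊ : ℝ) < y + 1 := Nat.ceil_lt_add_one hy0
    have h4 : y * θ = t * (2 * Real.pi) - ψ - θ / 2 := by
      rw [hy]; field_simp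
    have h5 : y * θ ≤ (⌈y⌉₊ : ℝ) * θ := mul_le_mul_of_nonneg_right h2 h0.le
    have h6 : (⌈y⌉₊ : ℝ) * θ < (y + 1) * θ := mul_lt_mul_of_pos_right h3 h0
    have h7 : Real.cos (ψ + (⌈y⌉₊ : ℝ) * θ) = Real.cos (ψ + (⌈y⌉₊ : ℝ) * θ - t * (2 * Real.pi)) := by
      rw [Real.cos_sub_nat_mul_two_pi]
    rw [h7, ← Real.cos_abs (ψ + (⌈y⌉₊ : ℝ) * θ - t * (2 * Real.pi))]
    apply Real.cos_le_cos_of_nonneg_of_le_pi (abs_nonneg _) (by linarith)
    rw [abs_le]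
    constructor
    · linarith
    · nlinarith

/-- Oscillation: if `sin θ ≠ 0` then `cos (ψ + j θ)` is bounded below by some `δ > 0` for
infinitely many `j`, `δ` depending on `θ` only. -/
lemma osc {θ : ℝ} (h : Real.sin θ ≠ 0) :
    ∃ δ : ℝ, 0 < δ ∧ ∀ (ψ : ℝ) (N : ℕ), ∃ j : ℕ, N ≤ j ∧ δ ≤ Real.cos (ψ + j * θ) := by
  have hπ := Real.pi_pos
  obtain ⟨k, hk⟩ : ∃ k : ℤ, |θ - k * (2 * Real.pi)| ≤ Real.pi := by
    refine ⟨round (θ / (2 * Real.pi)), ?_⟩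
    have h1 := abs_sub_round (θ / (2 * Real.pi))
    have h2 : θ - (round (θ / (2 * Real.pi)) : ℝ) * (2 * Real.pi) =
        (θ / (2 * Real.pi) - round (θ / (2 * Real.pi))) * (2 * Real.pi) := by
      field_simp
    rw [h2, abs_mul, abs_of_pos (by positivity : (0 : ℝ) < 2 * Real.pi)]
    nlinarith
  set θ' := θ - k * (2 * Real.pi) with hθ'
  have hsin : Real.sin θ' ≠ 0 := by
    rw [hθ', Real.sin_sub_int_mul_two_pi]; exact h
  have hcos : ∀ (ψ : ℝ) (j : ℕ), Real.cos (ψ + j * θ) = Real.cos (ψ + j * θ') := by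
    intro ψ j
    have : ψ + (j : ℝ) * θ = ψ + j * θ' + ((j * k : ℤ) : ℝ) * (2 * Real.pi) := by
      rw [hθ']; push_cast; ring
    rw [this, Real.cos_add_int_mul_two_pi]
  have hne0 : θ' ≠ 0 := by
    intro h0; rw [h0] at hsin; simp at hsin
  have hneπ : |θ'| ≠ Real.pi := by
    intro h0
    rcases abs_eq hπ.le |>.1 h0 with h1 | h1 <;> rw [h1] at hsin <;> simp at hsin
  have hlt : |θ'| < Real.pi := lt_of_le_of_ne hk hneπ
  have hpos : 0 < |θ'| := abs_pos.2 hne0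
  refine ⟨Real.cos (|θ'| / 2), Real.cos_pos_of_mem_Ioo ⟨by linarith, by linarith⟩, ?_⟩
  intro ψ N
  rcases lt_or_gt_of_ne hne0 with hneg | hpo
  · obtain ⟨j, hj, hj2⟩ := osc_pos hpos hlt (-ψ) N
    refine ⟨j, hj, ?_⟩
    rw [hcos]
    have : ψ + (j : ℝ) * θ' = -(-ψ + j * |θ'|) := by
      rw [abs_of_neg hneg]; ring
    rw [this, Real.cos_neg]
    exact hj2
  · obtain ⟨j, hj, hj2⟩ := osc_pos hpos hlt ψ N
    refine ⟨j, hj, ?_⟩
    rw [hcos]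
    rw [abs_of_pos hpo] at hj2 ⊢
    exact hj2

end Pool.Agent.H10.CC
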