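import Pool.Agent.H10.CC.Crit

set_option autoImplicit false

/-!
# Diagonal operators with prescribed angles
-/

namespace Pool.Agent.H10.CC

open Pool.Agent.K7.H85 Pool.Agent.K7.H85.CC Filter Topology
open Pool.Agent.Results.MP_8292e8_an.EverySeparableSpace (exists_weights)

set_option linter.unusedSectionVars false

section diag

variable {𝕜 : Type*} [RCLike 𝕜] {X : Type*} [NormedAddCommGroup X] [NormedSpace 𝕜 X]
  [CompleteSpace X]

/-- Diagonal operator for an arbitrary biorthogonal system, with coefficients in a summable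
perturbation of a scalar. -/
lemma exists_diag (x : ℕ → X) (φ : ℕ → X →L[𝕜] 𝕜)
    (horth : ∀ n m, n ≠ m → φ n (x m) = 0) (hdiag : ∀ n, (x n = 0 ∧ φ n = 0) ∨ φ n (x n) = 1)
    (l : ℕ → 𝕜) (l₀ : 𝕜) (hl : Summable fun n => ‖l n - l₀‖ * (‖φ n‖ * ‖x n‖)) :
    ∃ S : X →L[𝕜] X, (∀ m, S (x m) = l m • x m) ∧ ∀ m y, φ m (S y) = l m * φ m y := by
  let A : ℕ → (X →L[𝕜] X) := fun n => (l n - l₀) • (φ n).smulRight (x n)
  have hA : Summable A := by
    refine Summable.of_norm_bounded hl fun n => ?_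
    simp only [A]
    rw [norm_smul, ContinuousLinearMap.norm_smulRight_apply]
  have hAx : ∀ m, (∑' n, A n) (x m) = (l m - l₀) • x m := by
    intro m
    have h1 : HasSum (fun n => A n (x m)) ((∑' n, A n) (x m)) := hasSum_eval A hA (x m)
    have h2 : HasSum (fun n => A n (x m)) (A m (x m)) := by
      refine hasSum_single m fun n hn => ?_
      simp only [A, smul_apply, ContinuousLinearMap.smulRight_apply]
      rw [horth n m hn, zero_smul, smul_zero]
    rw [h1.unique h2]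
    simp only [A, smul_apply, ContinuousLinearMap.smulRight_apply]
    rcases hdiag m with h | h
    · rw [h.1]; simp
    · rw [h, one_smul]
  have hφA : ∀ m y, φ m ((∑' n, A n) y) = (l m - l₀) * φ m y := by
    intro m y
    have h1 : HasSum (fun n => A n y) ((∑' n, A n) y) := hasSum_eval A hA y
    have h1' : HasSum (fun n => φ m (A n y)) (φ m ((∑' n, A n) y)) := hasSum_map (φ m) h1
    have h2 : HasSum (fun n => φ m (A n y)) (φ m (A m y)) := by
      refine hasSum_single m fun n hn => ?_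
      simp only [A, smul_apply, ContinuousLinearMap.smulRight_apply, map_smul]
      rw [horth m n (Ne.symm hn), smul_zero, smul_zero]
    rw [h1'.unique h2]
    simp only [A, smul_apply, ContinuousLinearMap.smulRight_apply, map_smul]
    rcases hdiag m with h | h
    · rw [h.2]; simp
    · rw [h]; simp
  refine ⟨l₀ • ContinuousLinearMap.id 𝕜 X + ∑' n, A n, ?_, ?_⟩
  · intro m
    simp only [smul_apply, add_apply, ContinuousLinearMap.id_apply]
    rw [hAx m, ← add_smul]
    congr 1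
    ring
  · intro m y
    simp only [smul_apply, add_apply, ContinuousLinearMap.id_apply, map_smul, map_add, hφA,
      smul_eq_mul]
    ring

lemma diag_pow (x : ℕ → X) (S : X →L[𝕜] X) (l : ℕ → 𝕜) (hS : ∀ m, S (x m) = l m • x m) (k m : ℕ) :
    (S ^ k) (x m) = l m ^ k • x m := by
  induction k with
  | zero => simp
  | succ k ih => rw [pow_succ', mul_apply_eq_comp, ih, map_smul, hS, smul_smul, pow_succ]

lemma functional_ne (x : ℕ → X) (hdense : Dense (Submodule.span 𝕜 (Set.range x) : Set X))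
    (f : X →L[𝕜] 𝕜) (hf : f ≠ 0) : ∃ n, f (x n) ≠ 0 := by
  by_contra hcon
  push Not at hcon
  apply hf
  ext y
  have hle : Submodule.span 𝕜 (Set.range x) ≤ LinearMap.ker (f : X →ₗ[𝕜] 𝕜) := by
    rw [Submodule.span_le]
    rintro _ ⟨n, rfl⟩
    exact hcon n
  have hcl : IsClosed {y : X | f y = 0} := isClosed_eq f.continuous continuous_const
  have := hdense.closure_eq
  have hy : y ∈ closure (Submodule.span 𝕜 (Set.range x) : Set X) := by rw [this]; trivial
  have h2 : closure (Submodule.span 𝕜 (Set.range x) : Set X) ⊆ {y : X | f y = 0} :=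
    closure_minimal (fun z hz => hle hz) hcl
  exact h2 hy

/-- A power of a diagonal operator is convex-cyclic if the powers of all its angles oscillate. -/
lemma diag_convexCyclic (x : ℕ → X) (hdense : Dense (Submodule.span 𝕜 (Set.range x) : Set X))
    (S : X →L[𝕜] X) (a : ℕ → 𝕜) (ha : ∀ m, ‖a m‖ = 1) (w : ℕ → ℝ) (hw0 : ∀ m, 0 < w m)
    (hw : ∀ n m, n < m → w m < w n) (hS : ∀ m, S (x m) = (a m * ((2 + w m : ℝ) : 𝕜)) • x m)
    (n : ℕ) (hn : 1 ≤ n)
    (hosc : ∀ m, x m ≠ 0 → ∀ b : 𝕜, b ≠ 0 → ∃ δ : ℝ, 0 < δ ∧ ∀ N : ℕ, ∃ j : ℕ, N ≤ j ∧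
      δ ≤ RCLike.re ((a m ^ n) ^ j * b)) :
    Dense (coOrb (S ^ n) (vec (𝕜 := 𝕜) x fun m => ‖x m‖)) := by
  have hpow : ∀ k m, ((S ^ n) ^ k) (x m) = ((a m ^ n) ^ k * (((2 + w m) ^ n : ℝ) : 𝕜) ^ k) • x m := by
    intro k m
    rw [← pow_mul, diag_pow x S _ hS, mul_pow, pow_mul, pow_mul]
    push_cast
    rfl
  refine crit (S ^ n) x (fun m => (2 + w m) ^ n) (fun m => ‖x m‖) ?_ ?_ (fun m => norm_nonneg _) ?_
    ?_ ?_
  · intro m
    exact one_lt_pow₀ (by linarith [hw0 m]) (by omega)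
  · intro k m hkm
    exact pow_lt_pow_left₀ (by linarith [hw k m hkm]) (by linarith [hw0 m]) (by omega)
  · intro m k
    rw [hpow, norm_smul, norm_mul, norm_pow, norm_pow, norm_pow, ha, one_pow, one_pow, one_mul,
      RCLike.norm_ofReal, abs_of_pos (pow_pos (by linarith [hw0 m]) n)]
    exact le_of_eq (mul_comm _ _)
  · intro f hf
    obtain ⟨m, hm⟩ := functional_ne x hdense f hf
    exact ⟨m, 0, by simpa using hm⟩
  · rintro f m ⟨k, hk⟩
    have hfx : f (x m) ≠ 0 := by
      intro h0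
      apply hk
      rw [hpow, map_smul, h0, smul_zero]
    have hx : x m ≠ 0 := by
      intro h0; rw [h0, map_zero] at hfx; exact hfx rfl
    obtain ⟨δ, hδ, h⟩ := hosc m hx (f (x m)) hfx
    refine ⟨δ, hδ, fun N => ?_⟩
    obtain ⟨j, hj, hj2⟩ := h N
    refine ⟨j, hj, ?_⟩
    have e1 : f (((S ^ n) ^ j) (x m)) =
        ((((2 + w m) ^ n) ^ j : ℝ) : 𝕜) * ((a m ^ n) ^ j * f (x m)) := by
      rw [hpow, map_smul, smul_eq_mul]
      push_cast
      ring
    rw [e1, RCLike.re_ofReal_mul, mul_comm]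
    have : 0 ≤ ((2 + w m) ^ n) ^ j := by have := hw0 m; positivity
    exact mul_le_mul_of_nonneg_left hj2 this

/-- Powers of an operator: the exponents with convex-cyclic power are exactly those in `E`, and
one vector `x` serves them all. -/
def Powers (S : X →L[𝕜] X) (x : X) (E : Set ℕ) : Prop :=
  ∀ n : ℕ, 1 ≤ n → (ConvexCyclic (S ^ n) ↔ n ∈ E) ∧ (n ∈ E → Dense (coOrb (S ^ n) x))

lemma powers_of {S : X →L[𝕜] X} {x : X} {E : Set ℕ} {P : ℕ → Prop} (hP : ∀ n, 1 ≤ n → (P n ↔ n ∈ E))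
    (h : ∀ n, 1 ≤ n → (ConvexCyclic (S ^ n) → P n) ∧ (P n → Dense (coOrb (S ^ n) x))) :
    Powers S x E := by
  intro n hn
  obtain ⟨h1, h2⟩ := h n hn
  refine ⟨⟨fun hc => (hP n hn).1 (h1 hc), fun hE => ⟨x, h2 ((hP n hn).2 hE)⟩⟩,
    fun hE => h2 ((hP n hn).2 hE)⟩

end diag

end Pool.Agent.H10.CC
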