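import Pool.Agent.H10.CC.Cplx

set_option autoImplicit false

/-!
# Finite sets of exponents, all separable complex Banach spaces
-/

namespace Pool.Agent.H10.CC

open Pool.Agent.K7.H85 Pool.Agent.K7.H85.CC Filter Topology
open Pool.Agent.Results.MP_8292e8_an.EverySeparableSpace (exists_weights not_convexCyclic)

/-- Enough nonzero vectors in a sequence with dense span. -/
lemma exists_indices {𝕜 : Type*} [RCLike 𝕜] {X : Type*} [NormedAddCommGroup X] [NormedSpace 𝕜 X]
    (x : ℕ → X) (hdense : Dense (Submodule.span 𝕜 (Set.range x) : Set X)) (k : ℕ)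
    (hk : (k : Cardinal) ≤ Module.rank 𝕜 X) : ∃ t : Finset ℕ, t.card = k ∧ ∀ m ∈ t, x m ≠ 0 := by
  classical
  by_cases hZ : {m | x m ≠ 0}.Finite
  · set Z := hZ.toFinset with hZdef
    have hspan : Submodule.span 𝕜 (Set.range x) = Submodule.span 𝕜 ((Z.image x : Finset X) : Set X) := by
      apply le_antisymm
      · rw [Submodule.span_le]
        rintro _ ⟨m, rfl⟩
        by_cases hm : x m = 0
        · rw [hm]; exact Submodule.zero_mem _
        · refine Submodule.subset_span ?_
          simp only [Finset.coe_image, Set.mem_image, Finset.mem_coe]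
          exact ⟨m, by simpa [hZdef] using hm, rfl⟩
      · refine Submodule.span_mono ?_
        intro y hy
        simp only [Finset.coe_image, Set.mem_image, Finset.mem_coe] at hy
        obtain ⟨m, -, rfl⟩ := hy
        exact ⟨m, rfl⟩
    have hfd : FiniteDimensional 𝕜 (Submodule.span 𝕜 (Set.range x)) := by
      rw [hspan]
      exact FiniteDimensional.span_finset 𝕜 _
    have hclosed : IsClosed (Submodule.span 𝕜 (Set.range x) : Set X) :=
      Submodule.closed_of_finiteDimensional _
    have htop : Submodule.span 𝕜 (Set.range x) = ⊤ := by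
      apply SetLike.coe_injective
      rw [← hclosed.closure_eq, hdense.closure_eq]
      rfl
    have hrank : Module.rank 𝕜 X ≤ (Z.card : Cardinal) := by
      have h1 : Module.rank 𝕜 (⊤ : Submodule 𝕜 X) ≤ (Z.card : Cardinal) := by
        rw [← htop, hspan]
        refine (rank_span_finset_le _).trans ?_
        exact_mod_cast Finset.card_image_le
      rwa [rank_top] at h1
    have hle : k ≤ Z.card := by exact_mod_cast hk.trans hrank
    obtain ⟨t, ht, htc⟩ := Finset.exists_subset_card_eq hle
    refine ⟨t, htc, fun m hm => ?_⟩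
    have := ht hm
    simpa [hZdef] using this
  · obtain ⟨t, ht, htc⟩ := Set.Infinite.exists_subset_card_eq hZ k
    exact ⟨t, htc, fun m hm => ht hm⟩

/-- Complex separable spaces, finite sets `Q`. -/
theorem complex_finite (X : Type*) [NormedAddCommGroup X] [NormedSpace ℂ X] [CompleteSpace X]
    [TopologicalSpace.SeparableSpace X] (Q : Finset ℕ) (hQ : ∀ q ∈ Q, 2 ≤ q)
    (hcard : (Q.card : Cardinal) ≤ Module.rank ℂ X) :
    ∃ (S : X →L[ℂ] X) (x : X), Powers S x {n | ∀ q ∈ Q, ¬ q ∣ n} := by
  classical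
  obtain ⟨x, φ, horth, hdiag, hdense⟩ := Biorth.exists_biorth ℂ X
  obtain ⟨w, hw0, hwlt, hwd⟩ := exists_weights (fun n => ‖φ n‖ * ‖x n‖) (fun n => by positivity)
  obtain ⟨t, htc, htx⟩ := exists_indices x hdense Q.card hcard
  let e : t ≃ Q := Finset.equivOfCardEq htc
  let θ : ℕ → ℝ := fun m => if h : m ∈ t then Real.pi / ((e ⟨m, h⟩ : ℕ) : ℝ) else 1
  let l : ℕ → ℂ := fun m => Complex.exp (θ m * Complex.I) * ((2 + w m : ℝ) : ℂ)
  let l₀ : ℂ := Complex.exp ((1 : ℝ) * Complex.I) * 2
  have hl : Summable fun n => ‖l n - l₀‖ * (‖φ n‖ * ‖x n‖) := by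
    refine Summable.of_norm_bounded_eventually_nat (g := fun n : ℕ => ((1 / 2 : ℝ)) ^ n)
      (summable_geometric_of_lt_one (by norm_num) (by norm_num)) ?_
    filter_upwards [eventually_gt_atTop (t.sup id)] with n hn
    have hnt : n ∉ t := fun h => by
      have := Finset.le_sup (f := id) h
      simp only [id] at this
      omega
    have h1 : l n - l₀ = Complex.exp ((1 : ℝ) * Complex.I) * ((w n : ℝ) : ℂ) := by
      simp only [l, l₀, θ, dif_neg hnt]
      push_cast
      ring
    rw [h1, norm_mul, norm_norm, norm_mul, Complex.norm_exp_ofReal_mul_I, one_mul, Complex.norm_real,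
      Real.norm_of_nonneg (hw0 n).le, norm_mul, norm_norm, norm_norm]
    exact hwd n
  obtain ⟨S, hS, hφS⟩ := exists_diag x φ (fun n m h => horth n m (Ne.symm h)) hdiag l l₀ hl
  refine ⟨S, _, powers_of ?_ fun n hn => complex_iff x φ hdiag hdense S θ w hw0 hwlt hS hφS n hn⟩
  intro n hn
  constructor
  · intro h q hq hqn
    have hm := htx (e.symm ⟨q, hq⟩ : ℕ) (e.symm ⟨q, hq⟩).2
    apply h _ hm
    have : θ (e.symm ⟨q, hq⟩ : ℕ) = Real.pi / (q : ℝ) := by
      simp only [θ]
      rw [dif_pos (e.symm ⟨q, hq⟩).2]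
      simp
    rw [this, sin_div_eq_zero n q (by have := hQ q hq; omega)]
    exact hqn
  · intro h m hm
    by_cases hmt : m ∈ t
    · have h1 : θ m = Real.pi / ((e ⟨m, hmt⟩ : ℕ) : ℝ) := by simp only [θ]; rw [dif_pos hmt]
      rw [h1, Ne, sin_div_eq_zero n _ (by have := hQ _ (e ⟨m, hmt⟩).2; omega)]
      exact h _ (e ⟨m, hmt⟩).2
    · have h1 : θ m = 1 := by simp only [θ]; rw [dif_neg hmt]
      rw [h1]
      have := sin_one_ne n hn 0 1 one_ne_zero
      simpa using this

end Pool.Agent.H10.CC
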