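import Pool.Agent.H10.CC.RlMain
import Pool.Agent.H10.CC.Basis

set_option autoImplicit false

/-!
# Divisors, odd powers on real spaces, and the characterisation for spaces with a basis
-/

namespace Pool.Agent.H10.CC

open Pool.Agent.K7.H85 Pool.Agent.K7.H85.CC Filter Topology
open Pool.Agent.Results.MP_8292e8_an.EverySeparableSpace (exists_weights not_convexCyclic)

/-- If a power is convex-cyclic, then so is every power whose exponent divides it. -/
theorem divisors {𝕜 : Type*} [RCLike 𝕜] {X : Type*} [NormedAddCommGroup X] [NormedSpace 𝕜 X]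
    (S : X →L[𝕜] X) (d n : ℕ) (h : d ∣ n) (hS : ConvexCyclic (S ^ n)) : ConvexCyclic (S ^ d) := by
  obtain ⟨x, hx⟩ := hS
  obtain ⟨e, rfl⟩ := h
  refine ⟨x, hx.mono ?_⟩
  rintro y ⟨c, hc0, hc1, rfl⟩
  refine ⟨c.mapDomain fun k => e * k, ?_, ?_, ?_⟩
  · intro k
    rw [Finsupp.mapDomain, Finsupp.sum, Finsupp.finsetSum_apply]
    refine Finset.sum_nonneg fun j _ => ?_
    rw [Finsupp.single_apply]
    split_ifs
    · exact hc0 j
    · exact le_rfl
  · rw [Finsupp.sum_mapDomain_index (fun _ => rfl) (fun _ _ _ => rfl)]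
    exact hc1
  · rw [Finsupp.sum_mapDomain_index (fun _ => by simp)
      (fun _ _ _ => by push_cast; rw [add_smul])]
    refine Finset.sum_congr rfl fun k _ => ?_
    show ((c k : ℝ) : 𝕜) • ((S ^ (d * e)) ^ k) x = ((c k : ℝ) : 𝕜) • ((S ^ d) ^ (e * k)) x
    rw [← pow_mul, ← pow_mul, mul_assoc]

/-- Real spaces: exactly the odd powers. -/
theorem real_odd (X : Type*) [NormedAddCommGroup X] [NormedSpace ℝ X] [CompleteSpace X]
    [TopologicalSpace.SeparableSpace X] [Nontrivial X] :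
    ∃ (S : X →L[ℝ] X) (x : X), Powers S x {n | Odd n} := by
  obtain ⟨x, φ, horth, hdiag, hdense⟩ := Biorth.exists_biorth ℝ X
  obtain ⟨w, hw0, hwlt, hwd⟩ := exists_weights (fun n => ‖φ n‖ * ‖x n‖) (fun n => by positivity)
  have hl : Summable fun n => ‖-(2 + w n) - (-2)‖ * (‖φ n‖ * ‖x n‖) := by
    refine Summable.of_nonneg_of_le (fun n => by positivity) (fun n => ?_)
      (summable_geometric_of_lt_one (r := (1 / 2 : ℝ)) (by norm_num) (by norm_num))
    have : -(2 + w n) - (-2) = -w n := by ring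
    rw [this, norm_neg, Real.norm_of_nonneg (hw0 n).le]
    exact hwd n
  obtain ⟨S, hS, hφS⟩ := exists_diag x φ (fun n m h => horth n m (Ne.symm h)) hdiag
    (fun n => -(2 + w n)) (-2) hl
  obtain ⟨m, hm⟩ : ∃ m, φ m (x m) = 1 := by
    obtain ⟨y, hy⟩ := exists_ne (0 : X)
    obtain ⟨f, -, hf⟩ := exists_dual_vector ℝ y (norm_ne_zero_iff.2 hy)
    have hf0 : f ≠ 0 := by
      rintro rfl
      simp at hf
      exact hy (norm_eq_zero.1 hf.symm)
    obtain ⟨m, hm⟩ := functional_ne x hdense f hf0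
    exact ⟨m, (hdiag m).resolve_left fun h => hm (by rw [h.1, map_zero])⟩
  refine ⟨S, vec (𝕜 := ℝ) x fun m => ‖x m‖, powers_of (P := fun n => Odd n) (fun n _ => Iff.rfl) fun n hn => ⟨?_, ?_⟩⟩
  · intro hc
    by_contra hodd
    have heven : Even n := Nat.not_odd_iff_even.1 hodd
    refine not_convexCyclic (S ^ n) (φ m) (x m) hm ((2 + w m) ^ n)
      (Or.inl (by have := hw0 m; positivity)) ?_ hc
    have hpow : ∀ (k : ℕ) (y : X), φ m ((S ^ k) y) = (-(2 + w m)) ^ k * φ m y := by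
      intro k y
      induction k with
      | zero => simp
      | succ k ih => rw [pow_succ', mul_apply_eq_comp, hφS, ih, pow_succ]; ring
    intro y
    rw [hpow, heven.neg_pow]
    rfl
  · intro hodd
    refine diag_convexCyclic x hdense S (fun _ => -1) (fun _ => by simp) w hw0 hwlt
      (fun m => by rw [hS]; congr 1; simp) n hn ?_
    intro m _ b hb
    refine ⟨|b|, abs_pos.2 hb, fun N => ?_⟩
    show ∃ j : ℕ, N ≤ j ∧ |b| ≤ ((-1 : ℝ) ^ n) ^ j * b
    rw [hodd.neg_one_pow]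
    rcases le_total 0 b with h | h
    · refine ⟨2 * N, by omega, ?_⟩
      rw [pow_mul, neg_one_sq, one_pow, one_mul, abs_of_nonneg h]
    · refine ⟨2 * N + 1, by omega, ?_⟩
      rw [pow_succ, pow_mul, neg_one_sq, one_pow, one_mul, abs_of_nonpos h]
      linarith

/-- Characterisation of the sets of exponents on complex spaces with a Schauder basis. -/
theorem basis_iff {X : Type*} [NormedAddCommGroup X] [NormedSpace ℂ X] [CompleteSpace X]
    (e : ℕ → X) (φ : ℕ → X →L[ℂ] ℂ) (hb : IsBasis e φ) (E : Set ℕ) :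
    (∃ (S : X →L[ℂ] X) (x : X), ConvexCyclic S ∧ Powers S x E) ↔
      (1 ∈ E ∧ ∀ n ∈ E, 1 ≤ n → ∀ d : ℕ, d ∣ n → d ∈ E) := by
  constructor
  · rintro ⟨S, x, hS, hP⟩
    refine ⟨(hP 1 le_rfl).1.1 (by simpa using hS), fun n hn hn1 d hd => ?_⟩
    have hd1 : 1 ≤ d := Nat.pos_of_dvd_of_pos hd hn1
    exact (hP d hd1).1.1 (divisors S d n hd ((hP n hn1).1.2 hn))
  · rintro ⟨h1, h2⟩
    obtain ⟨S, x, hP⟩ := complex_basis e φ hb {q | 2 ≤ q ∧ q ∉ E} (fun q hq => hq.1)
    have key : ∀ n : ℕ, 1 ≤ n → ((n ∈ {n : ℕ | ∀ q ∈ {q : ℕ | 2 ≤ q ∧ q ∉ E}, ¬ q ∣ n}) ↔ n ∈ E) := by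
      intro n hn
      constructor
      · intro h
        by_contra hnE
        have hn2 : 2 ≤ n := by
          by_contra hlt
          have : n = 1 := by omega
          exact hnE (this ▸ h1)
        exact h n ⟨hn2, hnE⟩ dvd_rfl
      · rintro h q ⟨-, hq⟩ hqn
        exact hq (h2 n h hn q hqn)
    have hP' : Powers S x E := fun n hn =>
      ⟨(hP n hn).1.trans (key n hn), fun h => (hP n hn).2 ((key n hn).2 h)⟩
    exact ⟨S, x, by simpa using (hP' 1 le_rfl).1.2 h1, hP'⟩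

end Pool.Agent.H10.CC
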