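import Pool.Agent.H10.CC.Fin

set_option autoImplicit false

/-!
# Real infinite-dimensional spaces: rotation blocks
-/

namespace Pool.Agent.H10.CC

open Pool.Agent.K7.H85 Pool.Agent.K7.H85.CC Filter Topology
open Pool.Agent.Results.MP_8292e8_an.EverySeparableSpace (exists_weights not_convexCyclic)

/-- In an infinite-dimensional separable space the biorthogonal system has no zero vectors. -/
lemma exists_biorth_inf (𝕜 : Type*) [RCLike 𝕜] (X : Type*) [NormedAddCommGroup X] [NormedSpace 𝕜 X]
    [TopologicalSpace.SeparableSpace X] (hinf : ¬ FiniteDimensional 𝕜 X) :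
    ∃ (x : ℕ → X) (φ : ℕ → X →L[𝕜] 𝕜), (∀ n m, φ n (x m) = if n = m then 1 else 0) ∧
      Dense (Submodule.span 𝕜 (Set.range x) : Set X) := by
  classical
  obtain ⟨x, φ, horth, hdiag, hdense⟩ := Biorth.exists_biorth 𝕜 X
  have hZ : {m | x m ≠ 0}.Infinite := by
    intro hfin
    obtain ⟨t, htc, ht⟩ := exists_indices x hdense (hfin.toFinset.card + 1) (by
      have h1 : Cardinal.aleph0 ≤ Module.rank 𝕜 X := by
        by_contra hlt
        exact hinf (Module.rank_lt_aleph0_iff.1 (not_le.1 hlt))
      exact (Cardinal.natCast_lt_aleph0).le.trans h1)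
    have hsub : t ⊆ hfin.toFinset := fun m hm => by simpa using ht m hm
    have := Finset.card_le_card hsub
    omega
  let g : ℕ → ℕ := Nat.nth (fun m => x m ≠ 0)
  have hg : ∀ n, x (g n) ≠ 0 := fun n => Nat.nth_mem_of_infinite hZ n
  have hginj : Function.Injective g := Nat.nth_injective hZ
  refine ⟨fun n => x (g n), fun n => φ (g n), ?_, ?_⟩
  · intro n m
    by_cases h : n = m
    · subst h
      rw [if_pos rfl]
      exact (hdiag (g n)).resolve_left fun h => hg n h.1
    · rw [if_neg h]
      exact horth _ _ fun h' => h (hginj h').symm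
  · have : Submodule.span 𝕜 (Set.range fun n => x (g n)) = Submodule.span 𝕜 (Set.range x) := by
      apply le_antisymm
      · refine Submodule.span_mono ?_
        rintro _ ⟨n, rfl⟩
        exact ⟨g n, rfl⟩
      · rw [Submodule.span_le]
        rintro _ ⟨m, rfl⟩
        by_cases hm : x m = 0
        · rw [hm]; exact Submodule.zero_mem _
        · refine Submodule.subset_span ?_
          obtain ⟨n, hn⟩ := Set.ext_iff.1 (Nat.range_nth_of_infinite hZ) m |>.2 hm
          exact ⟨n, by show x (g n) = x m; simp only [g]; rw [hn]⟩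
    rw [this]
    exact hdense

variable {X : Type*} [NormedAddCommGroup X] [NormedSpace ℝ X] [CompleteSpace X]

/-- Block operators. -/
lemma exists_block (x : ℕ → X) (φ : ℕ → X →L[ℝ] ℝ)
    (hb : ∀ n m, φ n (x m) = if n = m then 1 else 0) (c s : ℕ → ℝ)
    (hsum : Summable fun m => (|c m + 2| + |s m|) *
      ((‖φ (2 * m)‖ + ‖φ (2 * m + 1)‖) * (‖x (2 * m)‖ + ‖x (2 * m + 1)‖))) :
    ∃ S : X →L[ℝ] X, (∀ m, S (x (2 * m)) = c m • x (2 * m) + s m • x (2 * m + 1)) ∧
      (∀ m, S (x (2 * m + 1)) = -s m • x (2 * m) + c m • x (2 * m + 1)) ∧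
      (∀ m y, φ (2 * m) (S y) = c m * φ (2 * m) y - s m * φ (2 * m + 1) y) ∧
      (∀ m y, φ (2 * m + 1) (S y) = s m * φ (2 * m) y + c m * φ (2 * m + 1) y) := by
  let A : ℕ → (X →L[ℝ] X) := fun m =>
    (c m + 2) • ((φ (2 * m)).smulRight (x (2 * m)) + (φ (2 * m + 1)).smulRight (x (2 * m + 1))) +
      s m • ((φ (2 * m)).smulRight (x (2 * m + 1)) - (φ (2 * m + 1)).smulRight (x (2 * m)))
  have hAy : ∀ m y, A m y = (c m + 2) • (φ (2 * m) y • x (2 * m) + φ (2 * m + 1) y • x (2 * m + 1)) +
      s m • (φ (2 * m) y • x (2 * m + 1) - φ (2 * m + 1) y • x (2 * m)) := by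
    intro m y
    simp only [A, add_apply, smul_apply, sub_apply, ContinuousLinearMap.smulRight_apply]
  have hA : Summable A := by
    refine Summable.of_norm_bounded hsum fun m => ?_
    simp only [A]
    have n1 : ‖(φ (2 * m)).smulRight (x (2 * m)) + (φ (2 * m + 1)).smulRight (x (2 * m + 1))‖ ≤
        (‖φ (2 * m)‖ + ‖φ (2 * m + 1)‖) * (‖x (2 * m)‖ + ‖x (2 * m + 1)‖) := by
      refine (norm_add_le _ _).trans ?_
      rw [ContinuousLinearMap.norm_smulRight_apply, ContinuousLinearMap.norm_smulRight_apply]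
      have := norm_nonneg (φ (2 * m))
      have := norm_nonneg (φ (2 * m + 1))
      have := norm_nonneg (x (2 * m))
      have := norm_nonneg (x (2 * m + 1))
      nlinarith [mul_nonneg (norm_nonneg (φ (2 * m))) (norm_nonneg (x (2 * m + 1))),
        mul_nonneg (norm_nonneg (φ (2 * m + 1))) (norm_nonneg (x (2 * m)))]
    have n2 : ‖(φ (2 * m)).smulRight (x (2 * m + 1)) - (φ (2 * m + 1)).smulRight (x (2 * m))‖ ≤
        (‖φ (2 * m)‖ + ‖φ (2 * m + 1)‖) * (‖x (2 * m)‖ + ‖x (2 * m + 1)‖) := by
      refine (norm_sub_le _ _).trans ?_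
      rw [ContinuousLinearMap.norm_smulRight_apply, ContinuousLinearMap.norm_smulRight_apply]
      nlinarith [mul_nonneg (norm_nonneg (φ (2 * m))) (norm_nonneg (x (2 * m))),
        mul_nonneg (norm_nonneg (φ (2 * m + 1))) (norm_nonneg (x (2 * m + 1)))]
    refine (norm_add_le _ _).trans ?_
    rw [norm_smul, norm_smul, Real.norm_eq_abs, Real.norm_eq_abs, add_mul]
    exact add_le_add (mul_le_mul_of_nonneg_left n1 (abs_nonneg _))
      (mul_le_mul_of_nonneg_left n2 (abs_nonneg _))
  have hx : ∀ j y, (∀ m, m ≠ j → A m y = 0) → (∑' m, A m) y = A j y := by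
    intro j y h
    have h1 : HasSum (fun m => A m y) ((∑' m, A m) y) := hasSum_eval A hA y
    exact h1.unique (hasSum_single j fun m hm => h m hm)
  have hφ : ∀ i j y, (∀ m, m ≠ j → φ i (A m y) = 0) → φ i ((∑' m, A m) y) = φ i (A j y) := by
    intro i j y h
    have h1 : HasSum (fun m => φ i (A m y)) (φ i ((∑' m, A m) y)) :=
      hasSum_map (φ i) (hasSum_eval A hA y)
    exact h1.unique (hasSum_single j fun m hm => h m hm)
  refine ⟨(-2 : ℝ) • ContinuousLinearMap.id ℝ X + ∑' m, A m, ?_, ?_, ?_, ?_⟩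
  · intro m
    simp only [add_apply, smul_apply, ContinuousLinearMap.id_apply]
    rw [hx m]
    · rw [hAy]
      simp only [hb, if_true, if_neg (show ¬ (2 * m + 1 = 2 * m) by omega)]
      module
    · intro k hk
      rw [hAy]
      simp only [hb, if_neg (show ¬ (2 * k = 2 * m) by omega),
        if_neg (show ¬ (2 * k + 1 = 2 * m) by omega)]
      simp
  · intro m
    simp only [add_apply, smul_apply, ContinuousLinearMap.id_apply]
    rw [hx m]
    · rw [hAy]
      simp only [hb, if_true, if_neg (show ¬ (2 * m = 2 * m + 1) by omega)]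
      module
    · intro k hk
      rw [hAy]
      simp only [hb, if_neg (show ¬ (2 * k = 2 * m + 1) by omega),
        if_neg (show ¬ (2 * k + 1 = 2 * m + 1) by omega)]
      simp
  · intro m y
    simp only [add_apply, smul_apply, ContinuousLinearMap.id_apply, map_add, map_smul, smul_eq_mul]
    rw [hφ (2 * m) m y]
    · rw [hAy]
      simp only [map_add, map_sub, map_smul, smul_eq_mul, hb, if_true,
        if_neg (show ¬ (2 * m = 2 * m + 1) by omega)]
      ring
    · intro k hk
      rw [hAy]
      simp only [map_add, map_sub, map_smul, smul_eq_mul, hb,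
        if_neg (show ¬ (2 * m = 2 * k) by omega), if_neg (show ¬ (2 * m = 2 * k + 1) by omega)]
      ring
  · intro m y
    simp only [add_apply, smul_apply, ContinuousLinearMap.id_apply, map_add, map_smul, smul_eq_mul]
    rw [hφ (2 * m + 1) m y]
    · rw [hAy]
      simp only [map_add, map_sub, map_smul, smul_eq_mul, hb, if_true,
        if_neg (show ¬ (2 * m + 1 = 2 * m) by omega)]
      ring
    · intro k hk
      rw [hAy]
      simp only [map_add, map_sub, map_smul, smul_eq_mul, hb,
        if_neg (show ¬ (2 * m + 1 = 2 * k) by omega), if_neg (show ¬ (2 * m + 1 = 2 * k + 1) by omega)]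
      ring

end Pool.Agent.H10.CC
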