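import Pool.Agent.H10.CC.Rl

set_option autoImplicit false

/-!
# Real infinite-dimensional spaces: exact set of convex-cyclic powers
-/

namespace Pool.Agent.H10.CC

open Pool.Agent.K7.H85 Pool.Agent.K7.H85.CC Filter Topology
open Pool.Agent.Results.MP_8292e8_an.EverySeparableSpace (exists_weights not_convexCyclic)

variable {X : Type*} [NormedAddCommGroup X] [NormedSpace ℝ X] [CompleteSpace X]

lemma block_iff (x : ℕ → X) (φ : ℕ → X →L[ℝ] ℝ)
    (hb : ∀ n m, φ n (x m) = if n = m then 1 else 0)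
    (hdense : Dense (Submodule.span ℝ (Set.range x) : Set X))
    (S : X →L[ℝ] X) (θ ρ : ℕ → ℝ) (hρ1 : ∀ m, 1 < ρ m) (hρ : ∀ n m, n < m → ρ m < ρ n)
    (h1 : ∀ m, S (x (2 * m)) =
      (ρ m * Real.cos (θ m)) • x (2 * m) + (ρ m * Real.sin (θ m)) • x (2 * m + 1))
    (h2 : ∀ m, S (x (2 * m + 1)) =
      -(ρ m * Real.sin (θ m)) • x (2 * m) + (ρ m * Real.cos (θ m)) • x (2 * m + 1))
    (h3 : ∀ m y, φ (2 * m) (S y) =
      (ρ m * Real.cos (θ m)) * φ (2 * m) y - (ρ m * Real.sin (θ m)) * φ (2 * m + 1) y)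
    (h4 : ∀ m y, φ (2 * m + 1) (S y) =
      (ρ m * Real.sin (θ m)) * φ (2 * m) y + (ρ m * Real.cos (θ m)) * φ (2 * m + 1) y)
    (n : ℕ) (hn : 1 ≤ n) :
    (ConvexCyclic (S ^ n) → ∀ m, Real.sin (n * θ m) ≠ 0) ∧
    ((∀ m, Real.sin (n * θ m) ≠ 0) → Dense (coOrb (S ^ n)
      (vec (𝕜 := ℝ) (fun m => x (2 * m)) fun m => ‖x (2 * m)‖ + ‖x (2 * m + 1)‖))) := by
  have hpx : ∀ (k m : ℕ), (S ^ k) (x (2 * m)) = ρ m ^ k • (Real.cos (k * θ m) • x (2 * m) +
      Real.sin (k * θ m) • x (2 * m + 1)) := by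
    intro k m
    induction k with
    | zero => simp
    | succ k ih =>
      rw [pow_succ', mul_apply_eq_comp, ih, map_smul, map_add, map_smul, map_smul, h1, h2]
      have e1 : ((k + 1 : ℕ) : ℝ) * θ m = k * θ m + θ m := by push_cast; ring
      rw [e1, Real.cos_add, Real.sin_add, pow_succ]
      module
  have hpφ : ∀ (k m : ℕ) (y : X), φ (2 * m) ((S ^ k) y) =
        ρ m ^ k * (Real.cos (k * θ m) * φ (2 * m) y - Real.sin (k * θ m) * φ (2 * m + 1) y) ∧
      φ (2 * m + 1) ((S ^ k) y) =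
        ρ m ^ k * (Real.sin (k * θ m) * φ (2 * m) y + Real.cos (k * θ m) * φ (2 * m + 1) y) := by
    intro k m y
    induction k with
    | zero => simp
    | succ k ih =>
      have e1 : ((k + 1 : ℕ) : ℝ) * θ m = k * θ m + θ m := by push_cast; ring
      rw [pow_succ', mul_apply_eq_comp, h3, h4, ih.1, ih.2, e1, Real.cos_add, Real.sin_add, pow_succ]
      constructor <;> ring
  constructor
  · rintro ⟨v, hv⟩ m hsin
    -- a nonzero functional vanishing on the orbit
    obtain ⟨α, β, hαβ, hv0⟩ : ∃ α β : ℝ, (α ≠ 0 ∨ β ≠ 0) ∧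
        α * φ (2 * m) v + β * φ (2 * m + 1) v = 0 := by
      by_cases h : φ (2 * m) v = 0
      · exact ⟨1, 0, Or.inl one_ne_zero, by rw [h]; ring⟩
      · exact ⟨-φ (2 * m + 1) v, φ (2 * m) v, Or.inr h, by ring⟩
    let ℓ : X →L[ℝ] ℝ := α • φ (2 * m) + β • φ (2 * m + 1)
    have hℓ : ∀ y, ℓ y = α * φ (2 * m) y + β * φ (2 * m + 1) y := by
      intro y
      simp only [ℓ, add_apply, smul_apply, smul_eq_mul]
    have hℓS : ∀ y, ℓ ((S ^ n) y) = (ρ m ^ n * Real.cos (n * θ m)) * ℓ y := by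
      intro y
      rw [hℓ, hℓ, (hpφ n m y).1, (hpφ n m y).2, hsin]
      ring
    have horb : ∀ k, ℓ (((S ^ n) ^ k) v) = 0 := by
      intro k
      induction k with
      | zero => simpa [hℓ] using hv0
      | succ k ih => rw [pow_succ', mul_apply_eq_comp, hℓS, ih, mul_zero]
    have hco : coOrb (S ^ n) v ⊆ {y | ℓ y = 0} := by
      rintro y ⟨t, -, -, rfl⟩
      show ℓ (t.sum fun k r => ((r : ℝ) : ℝ) • ((S ^ n) ^ k) v) = 0
      rw [Finsupp.sum, map_sum]
      exact Finset.sum_eq_zero fun k _ => by rw [map_smul, horb, smul_zero]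
    have hcl : IsClosed {y : X | ℓ y = 0} := isClosed_eq ℓ.continuous continuous_const
    have hall : ∀ y, ℓ y = 0 := by
      intro y
      have := closure_minimal hco hcl
      rw [hv.closure_eq] at this
      exact this (Set.mem_univ y)
    have ha := hall (x (2 * m))
    have hb' := hall (x (2 * m + 1))
    rw [hℓ, hb, hb, if_pos rfl, if_neg (by omega)] at ha
    rw [hℓ, hb, hb, if_pos rfl, if_neg (by omega)] at hb'
    rcases hαβ with h | h
    · apply h; linarith
    · apply h; linarith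
  · intro h
    have hT : ∀ (k m : ℕ), ((S ^ n) ^ k) (x (2 * m)) = (ρ m ^ n) ^ k •
        (Real.cos (k * (n * θ m)) • x (2 * m) + Real.sin (k * (n * θ m)) • x (2 * m + 1)) := by
      intro k m
      rw [← pow_mul, hpx, pow_mul]
      have : ((n * k : ℕ) : ℝ) * θ m = k * (n * θ m) := by push_cast; ring
      rw [this]
    refine crit (S ^ n) (fun m => x (2 * m)) (fun m => ρ m ^ n)
      (fun m => ‖x (2 * m)‖ + ‖x (2 * m + 1)‖) ?_ ?_ (fun m => by positivity) ?_ ?_ ?_
    · intro m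
      exact one_lt_pow₀ (hρ1 m) (by omega)
    · intro k m hkm
      exact pow_lt_pow_left₀ (hρ k m hkm) (by linarith [hρ1 m]) (by omega)
    · intro m k
      have hpos : 0 < (ρ m ^ n) ^ k := by have := hρ1 m; positivity
      rw [hT, norm_smul, Real.norm_eq_abs, abs_of_pos hpos, mul_comm]
      refine mul_le_mul_of_nonneg_right ?_ hpos.le
      refine (norm_add_le _ _).trans ?_
      rw [norm_smul, norm_smul, Real.norm_eq_abs, Real.norm_eq_abs]
      have e1 := Real.abs_cos_le_one (k * (n * θ m))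
      have e2 := Real.abs_sin_le_one (k * (n * θ m))
      exact add_le_add (mul_le_of_le_one_left (norm_nonneg _) e1)
        (mul_le_of_le_one_left (norm_nonneg _) e2)
    · intro f hf
      obtain ⟨j, hj⟩ := functional_ne x hdense f hf
      rcases Nat.even_or_odd' j with ⟨m, hm | hm⟩
      · exact ⟨m, 0, by simpa [hm] using hj⟩
      · by_cases h0 : f (x (2 * m)) = 0
        · refine ⟨m, 1, ?_⟩
          rw [hT, map_smul, map_add, map_smul, map_smul, h0]
          have e1 : Real.sin ((1 : ℕ) * (n * θ m)) ≠ 0 := by simpa using h m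
          have e2 : (ρ m ^ n) ^ 1 ≠ 0 := by have := hρ1 m; positivity
          rw [hm] at hj
          simp only [smul_eq_mul, mul_zero, zero_add]
          exact mul_ne_zero e2 (mul_ne_zero e1 hj)
        · exact ⟨m, 0, by simpa using h0⟩
    · rintro f m ⟨k, hk⟩
      set z : ℂ := ⟨f (x (2 * m)), f (x (2 * m + 1))⟩ with hz
      have hz0 : z ≠ 0 := by
        intro h0
        apply hk
        have e1 : f (x (2 * m)) = 0 := by have := congrArg Complex.re h0; simpa [hz] using this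
        have e2 : f (x (2 * m + 1)) = 0 := by have := congrArg Complex.im h0; simpa [hz] using this
        rw [hT, map_smul, map_add, map_smul, map_smul, e1, e2]
        simp
      obtain ⟨δ, hδ, hosc⟩ := osc (h m)
      refine ⟨‖z‖ * δ, by positivity, fun N => ?_⟩
      obtain ⟨j, hj, hj2⟩ := hosc (-z.arg) N
      refine ⟨j, hj, ?_⟩
      have hre : f (x (2 * m)) = ‖z‖ * Real.cos z.arg := by
        rw [Complex.norm_mul_cos_arg]
      have him : f (x (2 * m + 1)) = ‖z‖ * Real.sin z.arg := by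
        rw [Complex.norm_mul_sin_arg]
      have hval : f (((S ^ n) ^ j) (x (2 * m))) =
          (ρ m ^ n) ^ j * (‖z‖ * Real.cos (-z.arg + j * (n * θ m))) := by
        rw [hT, map_smul, map_add, map_smul, map_smul, hre, him, Real.cos_add, Real.cos_neg,
          Real.sin_neg]
        simp only [smul_eq_mul]
        ring
      show ‖z‖ * δ * (ρ m ^ n) ^ j ≤ f (((S ^ n) ^ j) (x (2 * m)))
      rw [hval, mul_comm]
      have hpos : 0 ≤ (ρ m ^ n) ^ j := by have := hρ1 m; positivity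
      exact mul_le_mul_of_nonneg_left (mul_le_mul_of_nonneg_left hj2 (norm_nonneg z)) hpos

/-- Real infinite-dimensional separable spaces, finite sets `Q`. -/
theorem real_finite (X : Type*) [NormedAddCommGroup X] [NormedSpace ℝ X] [CompleteSpace X]
    [TopologicalSpace.SeparableSpace X] (hinf : ¬ FiniteDimensional ℝ X) (Q : Finset ℕ)
    (hQ : ∀ q ∈ Q, 2 ≤ q) :
    ∃ (S : X →L[ℝ] X) (x : X), Powers S x {n | ∀ q ∈ Q, ¬ q ∣ n} := by
  classical
  obtain ⟨x, φ, hb, hdense⟩ := exists_biorth_inf ℝ X hinf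
  let D : ℕ → ℝ := fun m => (‖φ (2 * m)‖ + ‖φ (2 * m + 1)‖) * (‖x (2 * m)‖ + ‖x (2 * m + 1)‖)
  have hD : ∀ m, 0 ≤ D m := fun m => by simp only [D]; positivity
  obtain ⟨w, hw0, hwlt, hwd⟩ := exists_weights (fun m => D m + 1) (fun m => by have := hD m; positivity)
  have hw1 : ∀ m, w m ≤ 1 := by
    intro m
    have h1 := hwd m
    have h2 : ((1 / 2 : ℝ)) ^ m ≤ 1 := pow_le_one₀ (by norm_num) (by norm_num)
    have h3 := mul_nonneg (hw0 m).le (hD m)
    linarith
  have hη : ∀ m, ∃ r : ℚ, 0 < (r : ℝ) ∧ (r : ℝ) < w m := fun m => by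
    obtain ⟨r, h1, h2⟩ := exists_rat_btwn (hw0 m)
    exact ⟨r, h1, h2⟩
  choose η hη0 hηw using hη
  let e : Fin Q.card ≃ Q := Q.equivFin.symm
  let θ : ℕ → ℝ := fun m => if h : m < Q.card then Real.pi / ((e ⟨m, h⟩ : ℕ) : ℝ) else Real.pi + η m
  let ρ : ℕ → ℝ := fun m => 2 + w m
  have hsum : Summable fun m => (|ρ m * Real.cos (θ m) + 2| + |ρ m * Real.sin (θ m)|) *
      ((‖φ (2 * m)‖ + ‖φ (2 * m + 1)‖) * (‖x (2 * m)‖ + ‖x (2 * m + 1)‖)) := by
    refine Summable.of_norm_bounded_eventually_nat (g := fun n : ℕ => 7 * ((1 / 2 : ℝ)) ^ n)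
      ((summable_geometric_of_lt_one (by norm_num) (by norm_num)).mul_left 7) ?_
    filter_upwards [eventually_ge_atTop Q.card] with m hm
    have hθ : θ m = Real.pi + η m := by simp only [θ]; rw [dif_neg (by omega)]
    have hη1 : (η m : ℝ) ≤ 1 := (hηw m).le.trans (hw1 m)
    have hc : |ρ m * Real.cos (θ m) + 2| ≤ 4 * w m := by
      rw [hθ, add_comm Real.pi, Real.cos_add_pi]
      have h1 := Real.one_sub_sq_div_two_le_cos (x := (η m : ℝ))
      have h2 := Real.cos_le_one (η m : ℝ)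
      have h3 := hw0 m
      have h4 := hw1 m
      have h5 := hη0 m
      have h6 := hηw m
      have h7 : (η m : ℝ) ^ 2 ≤ w m := by nlinarith
      simp only [ρ]
      rw [abs_le]
      constructor <;> nlinarith
    have hs : |ρ m * Real.sin (θ m)| ≤ 3 * w m := by
      rw [hθ, add_comm Real.pi, Real.sin_add_pi, mul_neg, abs_neg, abs_mul]
      have h1 : |Real.sin (η m : ℝ)| ≤ w m := by
        refine (Real.abs_sin_le_abs).trans ?_
        rw [abs_of_pos (hη0 m)]
        exact (hηw m).le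
      have h3 := hw0 m
      have h4 := hw1 m
      have h5 : |ρ m| ≤ 3 := by
        simp only [ρ]
        rw [abs_of_pos (by linarith)]
        linarith
      exact mul_le_mul h5 h1 (abs_nonneg _) (by norm_num)
    have hDm := hD m
    show ‖(|ρ m * Real.cos (θ m) + 2| + |ρ m * Real.sin (θ m)|) * D m‖ ≤ 7 * (1 / 2) ^ m
    rw [Real.norm_of_nonneg (by positivity)]
    have h1 := hwd m
    have h3 := hw0 m
    calc (|ρ m * Real.cos (θ m) + 2| + |ρ m * Real.sin (θ m)|) * D m
        ≤ (4 * w m + 3 * w m) * D m := by gcongr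
      _ ≤ 7 * (w m * (D m + 1)) := by nlinarith
      _ ≤ 7 * (1 / 2) ^ m := by gcongr
  obtain ⟨S, h1, h2, h3, h4⟩ := exists_block x φ hb (fun m => ρ m * Real.cos (θ m))
    (fun m => ρ m * Real.sin (θ m)) hsum
  refine ⟨S, _, powers_of ?_ fun n hn => block_iff x φ hb hdense S θ ρ
    (fun m => by have := hw0 m; simp only [ρ]; linarith)
    (fun n m h => by have := hwlt n m h; simp only [ρ]; linarith) h1 h2 h3 h4 n hn⟩
  intro n hn
  constructor
  · intro h q hq hqn
    set i := e.symm ⟨q, hq⟩ with hi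
    apply h i.1
    have : θ i.1 = Real.pi / (q : ℝ) := by
      simp only [θ]
      rw [dif_pos i.2]
      simp [hi]
    rw [this, sin_div_eq_zero n q (by have := hQ q hq; omega)]
    exact hqn
  · intro h m
    by_cases hmt : m < Q.card
    · have h1 : θ m = Real.pi / ((e ⟨m, hmt⟩ : ℕ) : ℝ) := by simp only [θ]; rw [dif_pos hmt]
      rw [h1, Ne, sin_div_eq_zero n _ (by have := hQ _ (e ⟨m, hmt⟩).2; omega)]
      exact h _ (e ⟨m, hmt⟩).2
    · have h1 : θ m = ((1 : ℚ) : ℝ) * Real.pi + ((η m : ℚ) : ℝ) := by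
        simp only [θ]; rw [dif_neg hmt]; push_cast; ring
      rw [h1]
      refine sin_one_ne n hn _ _ ?_
      have := hη0 m
      exact fun h0 => by rw [h0] at this; simp at this

end Pool.Agent.H10.CC
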